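import Mathlib
import Pool.Agent.X197.LevyE

namespace Pool.Agent.Results.MP_89b5f7_an.TwoLevyVectors

open Filter Topology Pool.Agent.X197.Levy

/-- A conditionally convergent planar series with two Levy vectors, full sum range and full
achievement set, with a rearrangement whose achievement set is not the plane. -/
theorem result : ∃ x : ℕ → ℂ,
    (∃ s, Tendsto (fun N => ∑ n ∈ Finset.range N, x n) atTop (𝓝 s)) ∧
    ¬ Summable (fun n => ‖x n‖) ∧ SR x = Set.univ ∧ Ach x = Set.univ ∧
    (LevyVectors x).ncard = 2 ∧ ∃ σ : Equiv.Perm ℕ, Ach (x ∘ σ) ≠ Set.univ :=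
  main

end Pool.Agent.Results.MP_89b5f7_an.TwoLevyVectors
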